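import Pool.Agent.H37.DEN.Targets

/-!
# Board den_modules
-/

set_option autoImplicit false

open MvPolynomial Filter Topology
open Pool.Agent.H18.HIT Pool.Agent.H8.TD Pool.Agent.H37.DEN

namespace Pool.Agent.H95.DEN

theorem uf_exists {S ι' : Type} [Finite ι'] (U : Ultrafilter S) (P : ι' → S → Prop)
    (h : ∀ s, ∃ i, P i s) : ∃ i, ∀ᶠ s in (U : Filter S), P i s := by
  by_contra hcon
  rw [not_exists] at hcon
  have h1 : ∀ i, ∀ᶠ s in (U : Filter S), ¬ P i s := fun i =>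
    Ultrafilter.eventually_not.2 (hcon i)
  obtain ⟨s, hs⟩ := (eventually_all.2 h1).exists
  obtain ⟨i, hi⟩ := h s
  exact hs i hi

theorem pf_DOM : T_DOM := by
  intro k _ T τ e m S U C hF
  have hm : 0 < m := hF.one
  have : Nonempty (Fin m) := ⟨⟨0, hm⟩⟩
  have h1 : ∀ s, ∃ i : Fin m, (C s).dlt ≤ m * dl ((C s).ch i) := by
    intro s
    obtain ⟨i, _, hi⟩ := Finset.exists_max_image Finset.univ (fun i => dl ((C s).ch i))
      Finset.univ_nonempty
    refine ⟨i, ?_⟩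
    unfold Cv.dlt
    refine (Finset.sum_le_card_nsmul _ _ _ fun j hj => hi j hj).trans ?_
    rw [Finset.card_univ, Fintype.card_fin, smul_eq_mul]
  obtain ⟨i₀, hi₀⟩ := uf_exists U (fun i s => (C s).dlt ≤ m * dl ((C s).ch i)) h1
  refine ⟨i₀, hi₀, fun i => ?_⟩
  apply uf_exists U (fun (j : Fin 3) s => pl ((C s).ch i (X j)) = dl ((C s).ch i))
  intro s
  obtain ⟨j, _, hj⟩ := Finset.exists_mem_eq_sup Finset.univ Finset.univ_nonempty
    (fun j : Fin 3 => pl ((C s).ch i (X j)))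
  exact ⟨j, hj.symm⟩

theorem pf_XGR (hKON : T_KON) (hPOL : T_POL) : T_XGR := by
  intro k _ T τ e m S U C hF P c hP hc n
  have he : 1 ≤ e := by have := hF.fld.two; omega
  obtain ⟨s, hs1, hs2⟩ := (hc.and (hKON k T τ e m S U C hF).2).exists
  obtain ⟨h1, h2, _⟩ := hPOL k T e m (C s) he
  have h3 : (C s).pol (aeval (it T n) P) = e ^ n * (C s).pol P := by
    unfold Cv.pol
    rw [Finset.mul_sum]
    exact Finset.sum_congr rfl fun i _ => h1 i n P
  have h4 : (C s).pol (aeval (it T n) P) ≤ (aeval (it T n) P).totalDegree * (C s).dlt := by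
    unfold Cv.pol Cv.dlt
    rw [Finset.mul_sum]
    exact Finset.sum_le_sum fun i _ => h2 i _
  rw [h3] at h4
  have h5 : ((e : ℝ) ^ n) * (C s).pol P ≤ (aeval (it T n) P).totalDegree * (C s).dlt := by
    exact_mod_cast h4
  have h6 : (0 : ℝ) < (C s).dlt := by exact_mod_cast hs2
  have h7 : (0 : ℝ) ≤ (e : ℝ) ^ n := by positivity
  have h8 := mul_le_mul_of_nonneg_left hs1 h7
  refine le_of_mul_le_mul_right ?_ h6
  calc c * (e : ℝ) ^ n * (C s).dlt = (e : ℝ) ^ n * (c * (C s).dlt) := by ring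
    _ ≤ _ := h8.trans h5

end Pool.Agent.H95.DEN
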