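import Pool.Agent.H37.DEN.Targets

/-!
# Board den_modules
-/

set_option autoImplicit false

open MvPolynomial Filter Topology
open Pool.Agent.H18.HIT Pool.Agent.H8.TD Pool.Agent.H37.DEN

namespace Pool.Agent.H95.DEN

theorem pf_FGT : T_FGT := by
  intro Λ _ _ _ x y z w hind
  set M : Submodule ℤ Λ := Submodule.span ℤ {x, y, z, w} with hM
  have hMN : IsNoetherian ℤ M := isNoetherian_span_of_finite ℤ (Set.toFinite _)
  let N : Submodule ℤ Λ :=
    { carrier := {l | l ∈ M ∧ ∃ n : ℤ, n ≠ 0 ∧ ∃ a b : ℤ, n • l = a • x + b • y}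
      zero_mem' := ⟨M.zero_mem, 1, one_ne_zero, 0, 0, by simp⟩
      add_mem' := by
        rintro l l' ⟨hl, n, hn, a, b, h⟩ ⟨hl', n', hn', a', b', h'⟩
        refine ⟨M.add_mem hl hl', n * n', mul_ne_zero hn hn', n' * a + n * a',
          n' * b + n * b', ?_⟩
        have e1 : (n * n') • (l + l') = n' • (n • l) + n • (n' • l') := by
          rw [smul_add, smul_smul, smul_smul, mul_comm n' n]
        rw [e1, h, h']
        simp only [smul_add, smul_smul, add_smul]
        abel
      smul_mem' := by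
        rintro c l ⟨hl, n, hn, a, b, h⟩
        refine ⟨M.smul_mem c hl, n, hn, c * a, c * b, ?_⟩
        rw [smul_comm, h, smul_add, smul_smul, smul_smul] }
  have hNM : N ≤ M := fun l hl => hl.1
  have hfg : N.FG := isNoetherian_submodule.1 hMN N hNM
  obtain ⟨S, hS⟩ := hfg
  have hSN : ∀ l ∈ S, ∃ n : ℤ, n ≠ 0 ∧ ∃ a b : ℤ, n • l = a • x + b • y := by
    intro l hl
    have : l ∈ N := by rw [← hS]; exact Submodule.subset_span hl
    exact this.2
  choose! nn hnn aa bb hab using hSN
  set g : ℕ := ∏ l ∈ S, (nn l).natAbs with hg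
  have hg1 : 1 ≤ g := Nat.one_le_iff_ne_zero.2 (Finset.prod_ne_zero_iff.2 fun l hl =>
    Int.natAbs_ne_zero.2 (hnn l hl))
  have key : ∀ l ∈ N, ∃ a b : ℤ, (g : ℤ) • l = a • x + b • y := by
    intro l hl
    rw [← hS] at hl
    induction hl using Submodule.span_induction with
    | mem l hl =>
      have h1 : ((nn l).natAbs : ℤ) ∣ (g : ℤ) := by
        exact_mod_cast Finset.dvd_prod_of_mem (fun l => (nn l).natAbs) hl
      rw [Int.natAbs_dvd] at h1
      obtain ⟨c, hc⟩ := h1
      refine ⟨c * aa l, c * bb l, ?_⟩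
      rw [hc, mul_comm, mul_smul, hab l hl, smul_add, smul_smul, smul_smul]
    | zero => exact ⟨0, 0, by simp⟩
    | add l l' _ _ h h' =>
      obtain ⟨a, b, h⟩ := h
      obtain ⟨a', b', h'⟩ := h'
      refine ⟨a + a', b + b', ?_⟩
      rw [smul_add, h, h', add_smul, add_smul]
      abel
    | smul c l _ h =>
      obtain ⟨a, b, h⟩ := h
      refine ⟨c * a, c * b, ?_⟩
      rw [smul_comm, h, smul_add, smul_smul, smul_smul]
  refine ⟨g, hg1, ?_⟩
  intro a b n l hl hn h
  have hlM : l ∈ M := by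
    have h1 : AddSubgroup.closure {x, y, z, w} ≤ M.toAddSubgroup :=
      (AddSubgroup.closure_le _).2 (Submodule.subset_span)
    exact h1 hl
  obtain ⟨a', b', h'⟩ := key l ⟨hlM, n, hn, a, b, h.symm⟩
  have h2 : ((g : ℤ) * a - n * a') • x + ((g : ℤ) * b - n * b') • y = 0 := by
    have h3 : (g : ℤ) • (a • x + b • y) = n • (a' • x + b' • y) := by
      rw [h, ← h', smul_comm]
    simp only [smul_add, smul_smul] at h3
    rw [sub_smul, sub_smul]
    have h4 : ((g : ℤ) * a) • x - (n * a') • x + (((g : ℤ) * b) • y - (n * b') • y) =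
        (((g : ℤ) * a) • x + ((g : ℤ) * b) • y) - ((n * a') • x + (n * b') • y) := by abel
    rw [h4, h3, sub_self]
  have h5 := (hind _ _ h2).1
  exact ⟨a', by linarith⟩

end Pool.Agent.H95.DEN
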