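import Pool.Agent.H95.DEN.VAL

/-!
# Board den_modules
-/

set_option autoImplicit false

open MvPolynomial Filter Topology
open Pool.Agent.H18.HIT Pool.Agent.H8.TD Pool.Agent.H37.DEN

namespace Pool.Agent.H95.DEN

section

theorem cne {k : Type} [Field k] {x : LaurentSeries k} (hx : x ≠ 0) : x.coeff x.order ≠ 0 :=
  fun h => hx (HahnSeries.coeff_order_eq_zero.1 h)

variable {k : Type} [Field k]

/-- the order of a series from its coefficients -/
theorem order_eq_of {y : LaurentSeries k} {n : ℤ} (h1 : y.coeff n ≠ 0)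
    (h2 : ∀ m, m < n → y.coeff m = 0) : y.order = n := by
  have hy : y ≠ 0 := by
    intro h
    rw [h] at h1
    exact h1 (HahnSeries.coeff_zero)
  apply le_antisymm (HahnSeries.order_le_of_coeff_ne_zero h1)
  by_contra h
  push Not at h
  exact cne hy (h2 _ h)

/-- a constant -/
theorem gnc1 {x : LaurentSeries k} {c : k}
    (h : (x - HahnSeries.C c).order ≠ -(pl x : ℤ)) : x.coeff 0 = c := by
  by_contra hc
  apply h
  unfold pl
  rcases lt_or_ge x.order 0 with h0 | h0
  · have hx : x ≠ 0 := by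
      intro hx
      rw [hx, HahnSeries.order_zero] at h0
      exact lt_irrefl _ h0
    have h1 : (x - HahnSeries.C c).order = x.order := by
      apply order_eq_of
      · rw [HahnSeries.coeff_sub, HahnSeries.C_apply, HahnSeries.coeff_single_of_ne h0.ne,
          sub_zero]
        exact cne hx
      · intro m hm
        rw [HahnSeries.coeff_sub, HahnSeries.C_apply,
          HahnSeries.coeff_single_of_ne (hm.trans h0).ne, sub_zero]
        exact HahnSeries.coeff_eq_zero_of_lt_order hm
    rw [h1]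
    omega
  · have h1 : (x - HahnSeries.C c).order = 0 := by
      apply order_eq_of
      · rw [HahnSeries.coeff_sub, HahnSeries.C_apply, HahnSeries.coeff_single_same]
        exact sub_ne_zero.2 hc
      · intro m hm
        rw [HahnSeries.coeff_sub, HahnSeries.C_apply,
          HahnSeries.coeff_single_of_ne hm.ne, sub_zero]
        exact HahnSeries.coeff_eq_zero_of_lt_order (hm.trans_le h0)
    rw [h1]
    omega

theorem coeff_C_mul' (c : k) (y : LaurentSeries k) (n : ℤ) :
    (HahnSeries.C c * y).coeff n = c * y.coeff n := by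
  rw [HahnSeries.C_mul_eq_smul, HahnSeries.coeff_smul, smul_eq_mul]

/-- a linear combination -/
theorem gnc2 {x y : LaurentSeries k} {c : k} (hx : x ≠ 0) (hy : y ≠ 0) (hc : c ≠ 0)
    (h : (x + HahnSeries.C c * y).order ≠ min x.order y.order) :
    x.order = y.order ∧ x.coeff y.order + c * y.coeff y.order = 0 := by
  by_contra hcon
  apply h
  have hlow : ∀ m, m < min x.order y.order → (x + HahnSeries.C c * y).coeff m = 0 := by
    intro m hm
    rw [lt_min_iff] at hm
    rw [HahnSeries.coeff_add, coeff_C_mul', HahnSeries.coeff_eq_zero_of_lt_order hm.1,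
      HahnSeries.coeff_eq_zero_of_lt_order hm.2, mul_zero, add_zero]
  apply order_eq_of _ hlow
  rw [HahnSeries.coeff_add, coeff_C_mul']
  rcases lt_trichotomy x.order y.order with h1 | h1 | h1
  · rw [min_eq_left h1.le, HahnSeries.coeff_eq_zero_of_lt_order h1, mul_zero, add_zero]
    exact cne hx
  · rw [min_eq_right h1.ge]
    intro h2
    exact hcon ⟨h1, h2⟩
  · rw [min_eq_right h1.le, HahnSeries.coeff_eq_zero_of_lt_order h1, zero_add]
    exact mul_ne_zero hc (cne hy)

/-- finitely many bad constants -/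
theorem gnc_fin {S : Type} (U : Ultrafilter S) {m : ℕ} (bad : Fin m → k → S → Prop)
    (hu : ∀ i c c', c ≠ c' → ∀ᶠ s in (U : Filter S), ¬ (bad i c s ∧ bad i c' s)) :
    ∃ E₀ : Finset k, ∀ c, c ∉ E₀ → ∀ᶠ s in (U : Filter S), ∀ i, ¬ bad i c s := by
  have hsub : ∀ i, {c : k | ∀ᶠ s in (U : Filter S), bad i c s}.Finite := by
    intro i
    apply Set.Subsingleton.finite
    intro c hc c' hc'
    by_contra hne
    have h1 : ∀ᶠ s in (U : Filter S), bad i c s := hc
    have h2 : ∀ᶠ s in (U : Filter S), bad i c' s := hc'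
    obtain ⟨s, hs⟩ := ((h1.and h2).and (hu i c c' hne)).exists
    exact hs.2 hs.1
  have hfin : (⋃ i, {c : k | ∀ᶠ s in (U : Filter S), bad i c s}).Finite :=
    Set.finite_iUnion hsub
  refine ⟨hfin.toFinset, fun c hc => ?_⟩
  rw [Set.Finite.mem_toFinset, Set.mem_iUnion] at hc
  rw [eventually_all]
  intro i
  rw [Ultrafilter.eventually_not]
  intro h
  exact hc ⟨i, h⟩

end

theorem pf_GNC : T_GNC := by
  intro k _ T τ e m S U C hF
  constructor
  · intro Q
    obtain ⟨E₀, hE⟩ := gnc_fin U (fun (i : Fin m) (c : k) (s : S) =>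
      ((C s).ch i (Q - MvPolynomial.C c)).order ≠ -(pl ((C s).ch i Q) : ℤ)) (by
        intro i c c' hne
        refine Eventually.of_forall fun s hs => ?_
        have h1 := hs.1
        have h2 := hs.2
        rw [map_sub, order_C'] at h1 h2
        exact hne ((gnc1 h1).symm.trans (gnc1 h2)))
    refine ⟨E₀, fun c hc => (hE c hc).mono fun s hs i => ?_⟩
    exact not_not.1 (hs i)
  · intro P Q hP hQ
    obtain ⟨E₀, hE⟩ := gnc_fin U (fun (i : Fin m) (c : k) (s : S) => c ≠ 0 ∧
      ((C s).ch i (P + MvPolynomial.C c * Q)).order ≠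
        min ((C s).ch i P).order ((C s).ch i Q).order) (by
        intro i c c' hne
        filter_upwards [hF.gen P hP, hF.gen Q hQ] with s s1 s2 hs
        obtain ⟨⟨hc, h1⟩, ⟨hc', h2⟩⟩ := hs
        rw [map_add, map_mul, order_C'] at h1 h2
        have h3 := gnc2 (s1 i) (s2 i) hc h1
        have h4 := gnc2 (s1 i) (s2 i) hc' h2
        have h5 : (c - c') * ((C s).ch i Q).coeff ((C s).ch i Q).order = 0 := by
          linear_combination h3.2 - h4.2
        rcases mul_eq_zero.1 h5 with h6 | h6
        · exact hne (sub_eq_zero.1 h6)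
        · exact cne (s2 i) h6)
    classical
    refine ⟨insert 0 E₀, fun c hc => ?_⟩
    rw [Finset.mem_insert, not_or] at hc
    refine (hE c hc.2).mono fun s hs i => ?_
    by_contra h
    exact hs i ⟨hc.1, h⟩

theorem pf_RES (hRDG : T_RDG) (hORD : T_ORD) (hVAL : Pool.Agent.H37.DEN.T_VAL) :
    Pool.Agent.H37.DEN.T_RES := by
  intro k _ T τ e m S U C hF i h hh hV
  by_cases hτ : τ h = h
  · exact Or.inl hτ
  right
  have he : 1 ≤ e := by have := hF.fld.two; omega
  obtain ⟨hd, hhd, hn⟩ := (hRDG k).1 h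
  set P := nu h with hP
  set Q := de h with hQ
  have hP0 : P ≠ 0 := hn hh
  have hT : ∀ P : Po 3 k, P ≠ 0 → aeval T P ≠ 0 := by
    intro P hP h0
    have h5 := hF.fld.map P
    rw [h0] at h5
    have h7 : ι (0 : Po 3 k) = 0 := map_zero _
    rw [h7, map_eq_zero] at h5
    exact iota_ne hP h5
  set P' := aeval T P with hP'
  set Q' := aeval T Q with hQ'
  have e1 : τ h = ι P' / ι Q' := by
    rw [hP', hQ', ← hF.fld.map, ← hF.fld.map, ← map_div₀, ← hhd]
  have e2 : τ h - h = ι (P' * Q - Q' * P) / ι (Q' * Q) := by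
    rw [e1, iota_sub, iota_mul, iota_mul, iota_mul]
    nth_rewrite 1 [hhd]
    rw [div_sub_div _ _ (iota_ne (hT Q hd)) (iota_ne hd)]
  have hW : P' * Q - Q' * P ≠ 0 := by
    intro h0
    rw [h0] at e2
    have h7 : ι (0 : Po 3 k) = 0 := map_zero _
    rw [h7, zero_div, sub_eq_zero] at e2
    exact hτ e2
  have hgen : ∀ P : Po 3 k, P ≠ 0 → ∀ᶠ s in (U : Filter S), (C s).ch i P ≠ 0 := fun P hP =>
    (hF.gen P hP).mono fun s hs => hs i
  have h2 := (hVAL k T τ e m S U C hF i).2.1 _ _ hW (mul_ne_zero (hT Q hd) hd)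
  rw [← e2] at h2
  have hV0 : ∀ᶠ s in (U : Filter S), vs ((C s).ch i) h = 0 := Germ.coe_eq.1 hV
  refine Germ.coe_pos.2 ?_
  filter_upwards [h2, hV0, hgen P hP0, hgen Q hd, hgen P' (hT P hP0), hgen Q' (hT Q hd),
    hgen _ hW] with s s1 s2 s3 s4 s5 s6 s7
  rw [s1]
  unfold vs at s2
  rw [← hP, ← hQ] at s2
  obtain ⟨_, hoP, hcP⟩ := hORD k e _ _ he ((C s).pow i P)
  obtain ⟨_, hoQ, hcQ⟩ := hORD k e _ _ he ((C s).pow i Q)
  rw [← hP'] at hoP hcP
  rw [← hQ'] at hoQ hcQ
  set x := (C s).ch i P
  set y := (C s).ch i Q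
  set x' := (C s).ch i P'
  set y' := (C s).ch i Q'
  have hxy : x.order = y.order := by omega
  have hW' : (C s).ch i (P' * Q - Q' * P) = x' * y + -(y' * x) := by
    rw [map_sub, map_mul, map_mul, sub_eq_add_neg]
  rw [hW'] at s7 ⊢
  rw [map_mul, HahnSeries.order_mul s6 s4]
  have ho1 : (x' * y).order = y'.order + y.order := by
    rw [HahnSeries.order_mul s5 s4, hoP, hoQ, hxy]
  have ho2 : (y' * x).order = y'.order + y.order := by
    rw [HahnSeries.order_mul s6 s3, hxy]
  have hle : y'.order + y.order ≤ (x' * y + -(y' * x)).order := by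
    have := HahnSeries.min_order_le_order_add s7
    rw [HahnSeries.order_neg, ho1, ho2, min_self] at this
    exact this
  have hne : (x' * y + -(y' * x)).order ≠ y'.order + y.order := by
    intro h0
    have h3 := cne s7
    rw [h0, HahnSeries.coeff_add, HahnSeries.coeff_neg] at h3
    apply h3
    have h4 : (x' * y).coeff (y'.order + y.order) = x.coeff x.order * y.coeff y.order := by
      have h5 := HahnSeries.coeff_mul_order_add_order x' y
      rw [HahnSeries.leadingCoeff_eq, HahnSeries.leadingCoeff_eq, hcP] at h5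
      rw [← h5, hoP, hoQ, hxy]
    have h6 : (y' * x).coeff (y'.order + y.order) = y.coeff y.order * x.coeff x.order := by
      have h5 := HahnSeries.coeff_mul_order_add_order y' x
      rw [HahnSeries.leadingCoeff_eq, HahnSeries.leadingCoeff_eq, hcQ] at h5
      rw [← h5, hxy]
    rw [h4, h6]
    ring
  show 0 < _
  omega

end Pool.Agent.H95.DEN
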