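import Pool.Agent.H37.DEN.Targets

/-!
# Board den_modules
-/

set_option autoImplicit false

open MvPolynomial Filter Topology
open Pool.Agent.H18.HIT Pool.Agent.H8.TD Pool.Agent.H37.DEN

namespace Pool.Agent.H95.DEN

theorem pf_LIN (hSUM : T_SUM) : T_LIN := by
  intro k _ τ e Λ _ _ _ V hV κ G hG ι' y hy hij
  rw [linearIndependent_iff']
  intro s g hs
  by_contra hcon
  push Not at hcon
  obtain ⟨i₀, hi₀, hgi₀⟩ := hcon
  classical
  obtain ⟨_, _, h3⟩ := hSUM k τ e Λ V hV
  set s' := s.filter (fun i => g i ≠ 0) with hs'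
  have hne : s'.Nonempty := ⟨i₀, by rw [hs', Finset.mem_filter]; exact ⟨hi₀, hgi₀⟩⟩
  have hc : ∀ i ∈ s', ((g i : κ) : K3 k) ≠ 0 := by
    intro i hi
    rw [hs', Finset.mem_filter] at hi
    intro h
    exact hi.2 (by exact_mod_cast h)
  have h4 := h3 ι' s' (fun i => ((g i : κ) : K3 k) * y i) hne
    (fun i hi => mul_ne_zero (hc i hi) (hy i)) (by
      intro i hi j hj h
      rw [hV.mul _ _ (hc i hi) (hy i), hV.mul _ _ (hc j hj) (hy j)] at h
      apply hij
      have h5 : V (y i) - V (y j) = V (g j : K3 k) - V (g i : K3 k) := by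
        rw [sub_eq_sub_iff_add_eq_add, add_comm (V (y i)), h]
      rw [h5]
      exact G.sub_mem (hG _ (g j).2 (hc j hj)) (hG _ (g i).2 (hc i hi)))
  apply h4.1
  rw [hs', Finset.sum_filter_of_ne]
  · exact hs
  · intro i _ h hgi
    apply h
    rw [hgi]
    simp

end Pool.Agent.H95.DEN
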