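import Pool.Agent.H37.DEN.Targets

/-!
# Board den_modules
-/

set_option autoImplicit false

open MvPolynomial Filter Topology
open Pool.Agent.H18.HIT Pool.Agent.H8.TD Pool.Agent.H37.DEN

namespace Pool.Agent.H95.DEN

theorem pf_NMR : T_NMR := by
  intro e r g C he
  have he' : (2 : ℝ) ≤ e := by exact_mod_cast he
  have he0 : (0 : ℝ) < e := by linarith
  set a : ℝ := Real.exp (1 / (2 * (r + 1))) with ha
  have hr : (0 : ℝ) ≤ r := Nat.cast_nonneg r
  have ha1 : 1 < a := by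
    rw [ha]
    apply Real.one_lt_exp_iff.2
    positivity
  set b : ℝ := Real.exp (1 / 2) with hb
  have hb0 : 0 < b := Real.exp_pos _
  have hb2 : b < 2 := by
    have h1 : b ^ 2 < 4 := by
      rw [hb, ← Real.exp_nat_mul]
      have h2 := Real.exp_one_lt_d9
      norm_num
      norm_num at h2
      linarith
    nlinarith
  have har : a ^ r ≤ b := by
    rw [ha, hb, ← Real.exp_nat_mul]
    apply Real.exp_le_exp.2
    rw [mul_one_div, div_le_div_iff₀ (by positivity) (by norm_num)]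
    linarith
  refine ⟨e * a, by nlinarith, ?_⟩
  have hq : 1 < (e : ℝ) / b := by
    rw [lt_div_iff₀ hb0]; linarith
  have ht := (tendsto_pow_atTop_atTop_of_one_lt hq).eventually_gt_atTop ((C : ℝ) * g)
  obtain ⟨J₀, hJ⟩ := eventually_atTop.1 ht
  refine ⟨J₀, fun J hJJ => ?_⟩
  have h1 := hJ J hJJ
  rw [div_pow, lt_div_iff₀ (by positivity)] at h1
  have h2 : (a ^ r) ^ J ≤ b ^ J := pow_le_pow_left₀ (by positivity) har J
  have h3 : (C : ℝ) * g * (a ^ r) ^ J ≤ C * g * b ^ J :=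
    mul_le_mul_of_nonneg_left h2 (by positivity)
  have h4 : (C : ℝ) * g * (a ^ r) ^ J < (e : ℝ) ^ J := h3.trans_lt h1
  have h5 : (0 : ℝ) < ((e : ℝ) ^ (r * J)) ^ 2 := by positivity
  have h6 := mul_lt_mul_of_pos_right h4 h5
  have h7 : (C : ℝ) * (e : ℝ) ^ (r * J) * (e * a) ^ (r * J) * g =
      C * g * (a ^ r) ^ J * ((e : ℝ) ^ (r * J)) ^ 2 := by
    rw [mul_pow, ← pow_mul]
    ring
  rw [h7]
  exact h6

end Pool.Agent.H95.DEN
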