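import Pool.Agent.H37.DEN.Targets

/-!
# Board den_modules
-/

set_option autoImplicit false

open MvPolynomial Filter Topology
open Pool.Agent.H18.HIT Pool.Agent.H8.TD Pool.Agent.H37.DEN

namespace Pool.Agent.H95.DEN

section

variable {k : Type} [Field k]

theorem iota_inj {P Q : Po 3 k} (h : ι P = ι Q) : P = Q :=
  IsFractionRing.injective (Po 3 k) (K3 k) h

theorem iota_ne {P : Po 3 k} (h : P ≠ 0) : ι P ≠ 0 := by
  intro h0
  exact h (iota_inj (h0.trans (map_zero (algebraMap (Po 3 k) (K3 k))).symm))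

theorem iota_mul (P Q : Po 3 k) : ι (P * Q) = ι P * ι Q := map_mul _ _ _

theorem iota_add (P Q : Po 3 k) : ι (P + Q) = ι P + ι Q := map_add _ _ _

theorem iota_sub (P Q : Po 3 k) : ι (P - Q) = ι P - ι Q := map_sub _ _ _

theorem iota_C (c : k) : algebraMap k (K3 k) c = ι (MvPolynomial.C c) / ι 1 := by
  have h1 : ι (1 : Po 3 k) = 1 := map_one _
  rw [h1, div_one, IsScalarTower.algebraMap_apply k (Po 3 k) (K3 k)]
  rfl

/-- the order of a quotient -/
theorem vs_div (hRDG : T_RDG) (χ : Po 3 k →ₐ[k] LaurentSeries k) {P Q : Po 3 k} (hQ : Q ≠ 0)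
    (h1 : χ P ≠ 0) (h2 : χ Q ≠ 0) (h3 : χ (nu (ι P / ι Q)) ≠ 0) (h4 : χ (de (ι P / ι Q)) ≠ 0) :
    vs χ (ι P / ι Q) = (χ P).order - (χ Q).order := by
  obtain ⟨hd, hh, _⟩ := (hRDG k).1 (ι P / ι Q)
  have e1 : ι P * ι (de (ι P / ι Q)) = ι (nu (ι P / ι Q)) * ι Q :=
    (div_eq_div_iff (iota_ne hQ) (iota_ne hd)).1 hh
  rw [← iota_mul, ← iota_mul] at e1
  have e2 := congrArg χ (iota_inj e1)
  rw [map_mul, map_mul] at e2
  have e3 := congrArg HahnSeries.order e2
  rw [HahnSeries.order_mul h1 h4, HahnSeries.order_mul h3 h2] at e3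
  unfold vs
  omega

theorem order_C' (χ : Po 3 k →ₐ[k] LaurentSeries k) (c : k) :
    χ (MvPolynomial.C c) = HahnSeries.C c := by
  have h1 : χ (algebraMap k (Po 3 k) c) = algebraMap k (LaurentSeries k) c := χ.commutes c
  rw [MvPolynomial.algebraMap_eq] at h1
  rw [h1, HahnSeries.algebraMap_apply']
  simp

end

theorem pf_VAL (hRDG : T_RDG) (hORD : T_ORD) : Pool.Agent.H37.DEN.T_VAL := by
  intro k _ T τ e m S U C hF i
  have he : 1 ≤ e := by have := hF.fld.two; omega
  have hgen : ∀ P : Po 3 k, P ≠ 0 → ∀ᶠ s in (U : Filter S), (C s).ch i P ≠ 0 := fun P hP =>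
    (hF.gen P hP).mono fun s hs => hs i
  have h3 : ∀ h : K3 k, h ≠ 0 → ∀ᶠ s in (U : Filter S),
      (C s).ch i (nu h) ≠ 0 ∧ (C s).ch i (de h) ≠ 0 := by
    intro h hh
    obtain ⟨hd, _, hn⟩ := (hRDG k).1 h
    exact (hgen _ (hn hh)).and (hgen _ hd)
  have h2 : ∀ P Q : Po 3 k, P ≠ 0 → Q ≠ 0 → ∀ᶠ s in (U : Filter S),
      vs ((C s).ch i) (ι P / ι Q) = ((C s).ch i P).order - ((C s).ch i Q).order := by
    intro P Q hP hQ
    have hne : ι P / ι Q ≠ 0 := div_ne_zero (iota_ne hP) (iota_ne hQ)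
    filter_upwards [hgen P hP, hgen Q hQ, h3 _ hne] with s s1 s2 s3
    exact vs_div hRDG _ hQ s1 s2 s3.1 s3.2
  refine ⟨⟨?_, ?_, ?_, ?_⟩, h2, h3⟩
  · intro a b ha hb
    obtain ⟨hda, hha, hna⟩ := (hRDG k).1 a
    obtain ⟨hdb, hhb, hnb⟩ := (hRDG k).1 b
    have e1 : a * b = ι (nu a * nu b) / ι (de a * de b) := by
      rw [iota_mul, iota_mul, mul_div_mul_comm, ← hha, ← hhb]
    refine Germ.coe_eq.2 ?_
    have h4 := h2 (nu a * nu b) (de a * de b) (mul_ne_zero (hna ha) (hnb hb))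
      (mul_ne_zero hda hdb)
    rw [← e1] at h4
    filter_upwards [h4, h3 a ha, h3 b hb] with s s1 s2 s3
    show vs ((C s).ch i) (a * b) = vs ((C s).ch i) a + vs ((C s).ch i) b
    rw [s1, map_mul, map_mul, HahnSeries.order_mul s2.1 s3.1, HahnSeries.order_mul s2.2 s3.2]
    unfold vs
    ring
  · intro a b ha hb hab
    obtain ⟨hda, hha, hna⟩ := (hRDG k).1 a
    obtain ⟨hdb, hhb, hnb⟩ := (hRDG k).1 b
    have e1 : a + b = ι (nu a * de b + nu b * de a) / ι (de a * de b) := by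
      rw [iota_mul, iota_add, iota_mul, iota_mul]
      have h5 := iota_ne hda
      have h6 := iota_ne hdb
      rw [mul_comm (ι (nu b)), ← div_add_div _ _ h5 h6, ← hha, ← hhb]
    have hnum : nu a * de b + nu b * de a ≠ 0 := by
      intro h0
      rw [h0] at e1
      have h7 : ι (0 : Po 3 k) = 0 := map_zero _
      rw [h7, zero_div] at e1
      exact hab e1
    have h4 := h2 _ _ hnum (mul_ne_zero hda hdb)
    rw [← e1] at h4
    have h8 : ∀ᶠ s in (U : Filter S), vs ((C s).ch i) a ≤ vs ((C s).ch i) (a + b) ∨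
        vs ((C s).ch i) b ≤ vs ((C s).ch i) (a + b) := by
      filter_upwards [h4, h3 a ha, h3 b hb, hgen _ hnum] with s s1 s2 s3 s4
      rw [s1]
      rw [map_add, map_mul, map_mul] at s4 ⊢
      rw [map_mul, HahnSeries.order_mul s2.2 s3.2]
      have h9 := HahnSeries.min_order_le_order_add s4
      rw [HahnSeries.order_mul s2.1 s3.2, HahnSeries.order_mul s3.1 s2.2] at h9
      unfold vs
      rcases min_le_iff.1 h9 with h10 | h10
      · left; omega
      · right; omega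
    rw [min_le_iff]
    rcases Ultrafilter.eventually_or.1 h8 with h9 | h9
    · left
      exact Germ.coe_le.2 h9
    · right
      exact Germ.coe_le.2 h9
  · intro c hc
    have hCc : (MvPolynomial.C c : Po 3 k) ≠ 0 := by
      rw [Ne, MvPolynomial.C_eq_zero]
      exact hc
    have h4 := h2 (MvPolynomial.C c) 1 hCc one_ne_zero
    rw [← iota_C] at h4
    refine Germ.coe_eq.2 ?_
    filter_upwards [h4] with s s1
    show vs ((C s).ch i) (algebraMap k (K3 k) c) = 0
    rw [s1, order_C', HahnSeries.order_C, map_one, HahnSeries.order_one, sub_zero]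
  · intro a ha
    obtain ⟨hda, hha, hna⟩ := (hRDG k).1 a
    have hT : ∀ P : Po 3 k, P ≠ 0 → aeval T P ≠ 0 := by
      intro P hP h0
      have h5 := hF.fld.map P
      rw [h0] at h5
      have h7 : ι (0 : Po 3 k) = 0 := map_zero _
      rw [h7, map_eq_zero] at h5
      exact iota_ne hP h5
    have e1 : τ a = ι (aeval T (nu a)) / ι (aeval T (de a)) := by
      rw [← hF.fld.map, ← hF.fld.map, ← map_div₀, ← hha]
    have h4 := h2 _ _ (hT _ (hna ha)) (hT _ hda)
    rw [← e1] at h4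
    refine Germ.coe_eq.2 ?_
    filter_upwards [h4] with s s1
    show vs ((C s).ch i) (τ a) = (e : ℤ) • vs ((C s).ch i) a
    rw [s1, (hORD k e _ _ he ((C s).pow i (nu a))).2.1,
      (hORD k e _ _ he ((C s).pow i (de a))).2.1]
    unfold vs
    rw [smul_eq_mul]
    ring

end Pool.Agent.H95.DEN
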