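import Pool.Agent.H95.DEN.VAL

/-!
# Board den_modules
-/

set_option autoImplicit false

open MvPolynomial Filter Topology
open Pool.Agent.H18.HIT Pool.Agent.H8.TD Pool.Agent.H37.DEN

namespace Pool.Agent.H95.DEN

section

variable {k A : Type} [Field k] [CommRing A] [IsDomain A] [Algebra k A]

theorem two_iff (a q : A) : AlgebraicIndependent k ![a, q] ↔
    Transcendental k q ∧ Transcendental (Algebra.adjoin k {q}) a := by
  have h1 := AlgebraicIndependent.option_iff (R := k) (A := A) (x := fun _ : Unit => q) (a := a)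
  have h2 : Set.range (fun _ : Unit => q) = {q} := by
    ext y; simp [eq_comm]
  rw [h2] at h1
  have h3 : AlgebraicIndependent k (fun _ : Unit => q) ↔ Transcendental k q :=
    algebraicIndependent_unique_type_iff
  rw [h3] at h1
  rw [← h1]
  let e : Fin 2 ≃ Option Unit :=
    { toFun := fun i => if i = 0 then none else some ()
      invFun := fun o => o.elim 0 (fun _ => 1)
      left_inv := by intro i; fin_cases i <;> rfl
      right_inv := by intro o; rcases o with _ | _ <;> rfl }
  exact algebraicIndependent_equiv' e (by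
    funext i
    fin_cases i <;> rfl)

/-- algebraic over the polynomials in a power of `q`: algebraic over the polynomials in `q` -/
theorem alg_ext {q p a : A} (hp : p ∈ Algebra.adjoin k {q})
    (h : IsAlgebraic (Algebra.adjoin k {p}) a) : IsAlgebraic (Algebra.adjoin k {q}) a := by
  have le : Algebra.adjoin k {p} ≤ Algebra.adjoin k {q} :=
    Algebra.adjoin_le (by rw [Set.singleton_subset_iff]; exact hp)
  let _ : Algebra (Algebra.adjoin k {p}) (Algebra.adjoin k {q}) :=
    (Subalgebra.inclusion le).toAlgebra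
  have : IsScalarTower (Algebra.adjoin k {p}) (Algebra.adjoin k {q}) A :=
    .of_algebraMap_eq fun x => rfl
  exact h.extendScalars (Subalgebra.inclusion_injective le)

theorem trans_of_nonconst [IsAlgClosed k] {q : A} (h : ∀ c : k, q ≠ algebraMap k A c) :
    Transcendental k q := by
  intro halg
  have hint : IsIntegral k q := halg.isIntegral
  have hirr := minpoly.irreducible hint
  have hdeg := IsAlgClosed.degree_eq_one_of_irreducible k hirr
  obtain ⟨c, hc⟩ := minpoly.mem_range_of_degree_eq_one k q hdeg
  exact h c hc.symm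

end

theorem tdp {k : Type} [Field k] {p : Po 3 k} (hp : p ≠ 0) (n : ℕ) :
    (p ^ n).totalDegree = n * p.totalDegree := by
  induction n with
  | zero => simp
  | succ n ih =>
    rw [pow_succ, totalDegree_mul_of_isDomain (pow_ne_zero n hp) hp, ih]
    ring

/-- one of the coordinates is transcendental over the polynomials in `q` -/
theorem exists_tr {k : Type} [Field k] (q : Po 3 k) (hq : Transcendental k q) :
    ∃ j : Fin 3, Transcendental (Algebra.adjoin k {q}) (X j : Po 3 k) := by
  by_contra hcon
  push Not at hcon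
  have h1 : ∀ j : Fin 3, IsAlgebraic (Algebra.adjoin k {q}) (X j : Po 3 k) := by
    intro j
    exact not_not.1 (hcon j)
  have hv := IsTranscendenceBasis.mvPolynomial (Fin 3) k
  have h2 : Algebra.IsAlgebraic (Algebra.adjoin k {q}) (Po 3 k) := hv.isAlgebraic_iff.2 h1
  have hind : AlgebraicIndependent k (fun _ : Unit => q) :=
    algebraicIndependent_unique_type_iff.2 hq
  have h3 : Set.range (fun _ : Unit => q) = {q} := by
    ext y; simp [eq_comm]
  have h4 : IsTranscendenceBasis k (fun _ : Unit => q) := by
    rw [hind.isTranscendenceBasis_iff_isAlgebraic, h3]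
    exact h2
  have h5 := h4.cardinalMk_eq hv
  simp at h5

theorem pf_DG2 (hITR : T_ITR) (hKON : T_KON) (hPOL : T_POL) (hDG1 : T_DG1) : T_DG2 := by
  intro k _ _ _ T τ e m S U C hF hG P Q c hP hQ hc hcmp
  have he : 1 ≤ e := by have := hF.fld.two; omega
  by_cases hind : AlgebraicIndependent k ![P, Q]
  · exact hDG1 k T τ e m S U C hF hG P Q c hind hc hcmp
  have hdlt := (hKON k T τ e m S U C hF).2
  -- `Q` is not constant
  have hQt : Transcendental k Q := by
    apply trans_of_nonconst
    intro a ha
    obtain ⟨s, hs1, hs2⟩ := (hcmp.and hdlt).exists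
    have h0 : (C s).pol Q = 0 := by
      unfold Cv.pol
      apply Finset.sum_eq_zero
      intro i _
      have h1 := (hPOL k T e m (C s) he).2.1 i Q
      rw [ha, MvPolynomial.algebraMap_eq, totalDegree_C, zero_mul] at h1
      rw [ha, MvPolynomial.algebraMap_eq]
      omega
    rw [h0] at hs1
    have h2 : (1 : ℝ) ≤ (C s).dlt := by exact_mod_cast hs2
    have h3 : (0 : ℝ) ≤ (C s).pol P := Nat.cast_nonneg _
    push_cast at hs1
    nlinarith
  rw [two_iff, not_and] at hind
  have hPa : IsAlgebraic (Algebra.adjoin k {Q}) P := not_not.1 (hind hQt)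
  obtain ⟨j, hj⟩ := exists_tr Q hQt
  obtain ⟨N, hN⟩ := exists_nat_ge ((1 + c) / c)
  have hN' : 1 + c ≤ N * c := by rwa [div_le_iff₀ hc] at hN
  have hN1 : 1 ≤ N := by
    by_contra h
    have : N = 0 := by omega
    rw [this] at hN'
    push_cast at hN'
    linarith
  -- the new pair
  have hind' : AlgebraicIndependent k ![P ^ N * X j, Q ^ N] := by
    rw [two_iff]
    refine ⟨hQt.pow hN1, ?_⟩
    intro halg
    have h1 : IsAlgebraic (Algebra.adjoin k {Q}) (P ^ N * X j) :=
      alg_ext (pow_mem (Algebra.self_mem_adjoin_singleton k Q) N) halg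
    have h2 : IsAlgebraic (Algebra.adjoin k {Q}) (X j : Po 3 k) :=
      IsAlgebraic.of_mul (mem_nonZeroDivisors_of_ne_zero (pow_ne_zero N hP)) (hPa.pow N) h1
    exact hj h2
  obtain ⟨N₀, hN₀⟩ := hDG1 k T τ e m S U C hF hG (P ^ N * X j) (Q ^ N) c hind' hc (by
    filter_upwards [hcmp] with s hs
    obtain ⟨_, p2, _, p4, p5⟩ := hPOL k T e m (C s) he
    have h1 : (C s).pol (P ^ N * X j) ≤ N * (C s).pol P + (C s).dlt := by
      unfold Cv.pol Cv.dlt
      rw [Finset.mul_sum, ← Finset.sum_add_distrib]
      refine Finset.sum_le_sum fun i _ => ?_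
      refine (p4 i _ _).trans ?_
      rw [p5]
      have h2 := p2 i (X j)
      rw [totalDegree_X, one_mul] at h2
      omega
    have h2 : (C s).pol (Q ^ N) = N * (C s).pol Q := by
      unfold Cv.pol
      rw [Finset.mul_sum]
      exact Finset.sum_congr rfl fun i _ => p5 i Q N
    have h3 : ((C s).pol (P ^ N * X j) : ℝ) ≤ N * (C s).pol P + (C s).dlt := by
      exact_mod_cast h1
    rw [h2]
    push_cast
    have h4 : (0 : ℝ) ≤ (C s).dlt := Nat.cast_nonneg _
    have h5 := mul_le_mul_of_nonneg_left hs (Nat.cast_nonneg (α := ℝ) N)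
    have h6 := mul_le_mul_of_nonneg_right hN' h4
    nlinarith)
  refine ⟨N₀, fun n hn => ?_⟩
  have h1 := hN₀ n hn
  have hne := (hITR k T τ hF.fld.map).2.2.2.1 n
  rw [map_mul, map_pow, map_pow, totalDegree_mul_of_isDomain (pow_ne_zero N (hne P hP))
    (hne _ (X_ne_zero j)), tdp (hne P hP), tdp (hne Q hQ)] at h1
  have h2 : N * (aeval (it T n) P).totalDegree < N * (aeval (it T n) Q).totalDegree := by omega
  exact lt_of_mul_lt_mul_left h2 (Nat.zero_le N)

end Pool.Agent.H95.DEN
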